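import Pool.Agent.Work.MP_bb13ef_an.TD.L1Seq

/-!
# Numerical index one and convex combinations of slices of diameter two
-/

set_option autoImplicit false

open scoped ZeroAtInfty

namespace Pool.Agent.Results.MP_bb13ef_an.DiameterTwo

/-- `X` contains an isomorphic copy of `c₀`: an operator from `c₀` to `X` is bounded below. -/
def ContainsC0 (X : Type) [NormedAddCommGroup X] [NormedSpace ℝ X] : Prop :=
  ∃ S : C₀(ℕ, ℝ) →L[ℝ] X, ∃ c : ℝ, 0 < c ∧ ∀ y : C₀(ℕ, ℝ), c * ‖y‖ ≤ ‖S y‖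

/-- `X` contains an isomorphic copy of `ℓ₁`: a bounded sequence has a lower `ℓ₁` estimate. -/
def ContainsL1 (X : Type) [NormedAddCommGroup X] [NormedSpace ℝ X] : Prop :=
  ∃ (x : ℕ → X) (c : ℝ), 0 < c ∧ (∀ n, ‖x n‖ ≤ 1) ∧
    ∀ (s : Finset ℕ) (a : ℕ → ℝ), c * ∑ n ∈ s, |a n| ≤ ‖∑ n ∈ s, a n • x n‖

/-- The slice of the closed unit ball given by the functional `g` and the number `a`. -/
def Slice {X : Type} [NormedAddCommGroup X] [NormedSpace ℝ X] (g : X →L[ℝ] ℝ) (a : ℝ) : Set X :=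
  {x | ‖x‖ ≤ 1 ∧ a < g x}

/-- Every convex combination of nonempty slices of the unit ball contained in `T` has diameter
two. -/
def DiamTwo {X : Type} [NormedAddCommGroup X] [NormedSpace ℝ X] (T : Set X) : Prop :=
  ∀ (n : ℕ) (l : Fin n → ℝ) (g : Fin n → (X →L[ℝ] ℝ)) (a : Fin n → ℝ),
    (∀ i, 0 ≤ l i) → ∑ i, l i = 1 →
    (∀ i, (Slice (g i) (a i)).Nonempty ∧ Slice (g i) (a i) ⊆ T) →
    ∀ r : ℝ, r < 2 → ∃ x y : Fin n → X,
      (∀ i, x i ∈ Slice (g i) (a i) ∧ y i ∈ Slice (g i) (a i)) ∧ r < ‖∑ i, l i • (x i - y i)‖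

/-- Let `X` be a separable infinite-dimensional real Banach space with numerical index `1` which
contains neither `c₀` nor `ℓ₁`. Then there is a finite set `F` such that every nonempty slice of
the unit ball disjoint from `F` contains a nonempty slice in which every convex combination of
slices has diameter two. -/
theorem result (X : Type) [NormedAddCommGroup X] [NormedSpace ℝ X] [CompleteSpace X]
    [TopologicalSpace.SeparableSpace X] (hX : ¬ FiniteDimensional ℝ X)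
    (hN : ∀ T : X →L[ℝ] X, ∀ r : ℝ, r < ‖T‖ →
      ∃ x : X, ∃ f : X →L[ℝ] ℝ, ‖x‖ = 1 ∧ ‖f‖ = 1 ∧ f x = 1 ∧ r < |f (T x)|)
    (h₀ : ¬ ContainsC0 X) (h₁ : ¬ ContainsL1 X) :
    ∃ F : Set X, F.Finite ∧ ∀ (h : X →L[ℝ] ℝ) (c : ℝ), (Slice h c).Nonempty →
      Disjoint F (Slice h c) → ∃ (k : X →L[ℝ] ℝ) (a : ℝ),
        (Slice k a).Nonempty ∧ Slice k a ⊆ Slice h c ∧ DiamTwo (Slice k a) := by
  obtain ⟨F, hF, hh⟩ := MPbb13ef.TD2 X hX hN h₀ (fun h => h₁ (MPbb13ef.seq_of_hasL1 X h))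
  refine ⟨F, hF, fun h c hz hd => ?_⟩
  obtain ⟨k, a, hne, hsub, hS⟩ := hh h c hz
    (fun v hv hvS => Set.disjoint_left.1 hd hv hvS)
  refine ⟨k, a, hne, hsub, ?_⟩
  intro n l g b hl hl1 hT r hr
  obtain ⟨x, y, hx, hy, hxy⟩ := hS n l g b hl hl1 (fun i => (hT i).1)
    (fun i x hx => ((hT i).2 hx).2) r hr
  exact ⟨x, y, fun i => ⟨hx i, hy i⟩, hxy⟩

end Pool.Agent.Results.MP_bb13ef_an.DiameterTwo
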