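import Pool.Agent.Work.MP_bb13ef_an.DU.Main2

/-!
# Numerical index one and embeddings into dual spaces
-/

set_option autoImplicit false

namespace Pool.Agent.Results.MP_bb13ef_an.DualSpace

/-- `X` contains an isomorphic copy of `ℓ₁`. -/
def ContainsL1 (X : Type) [NormedAddCommGroup X] [NormedSpace ℝ X] : Prop :=
  ∃ S : lp (fun _ : ℕ => ℝ) 1 →L[ℝ] X, ∃ c : ℝ, 0 < c ∧
    ∀ y : lp (fun _ : ℕ => ℝ) 1, c * ‖y‖ ≤ ‖S y‖

/-- Let `X` be an infinite-dimensional real Banach space with numerical index `1` and `J` an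
isomorphic embedding of `X` into the dual of a real Banach space `Y`. Then `Y` or `X` contains `ℓ₁`;
if `J` is onto, so that `X` is isomorphic to a dual space, then `X` contains `ℓ₁`. -/
theorem result :
    ∀ (X Y : Type) [NormedAddCommGroup X] [NormedSpace ℝ X] [CompleteSpace X]
      [NormedAddCommGroup Y] [NormedSpace ℝ Y] [CompleteSpace Y]
      (J : X →L[ℝ] (Y →L[ℝ] ℝ)) (c : ℝ), 0 < c → (∀ x : X, c * ‖x‖ ≤ ‖J x‖) →
      ¬ FiniteDimensional ℝ X →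
      (∀ T : X →L[ℝ] X, ∀ r : ℝ, r < ‖T‖ →
        ∃ x : X, ∃ f : X →L[ℝ] ℝ,
          ‖x‖ = 1 ∧ ‖f‖ = 1 ∧ f x = 1 ∧ r < |f (T x)|) →
      (ContainsL1 Y ∨ ContainsL1 X) ∧ (Function.Surjective J → ContainsL1 X) :=
  fun X Y _ _ _ _ _ _ J c hc hJ hX hN => MPbb13ef.DUAL2 X Y J c hc hJ hX hN

end Pool.Agent.Results.MP_bb13ef_an.DualSpace
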