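import Pool.Agent.Work.MP_bb13ef_an.ACL.Final

/-!
# Separable almost-CL-spaces, and separable spaces with numerical index one and a boundary of spears
and countably many functionals, contain `c₀` or `ℓ₁`
-/

set_option autoImplicit false

open scoped ZeroAtInfty

namespace Pool.Agent.Results.MP_bb13ef_an.SpearBoundary

/-- `X` contains an isomorphic copy of `c₀`. -/
def ContainsC0 (X : Type) [NormedAddCommGroup X] [NormedSpace ℝ X] : Prop :=
  ∃ S : C₀(ℕ, ℝ) →L[ℝ] X, ∃ c : ℝ, 0 < c ∧ ∀ y : C₀(ℕ, ℝ), c * ‖y‖ ≤ ‖S y‖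

/-- `X` contains an isomorphic copy of `ℓ₁`. -/
def ContainsL1 (X : Type) [NormedAddCommGroup X] [NormedSpace ℝ X] : Prop :=
  ∃ S : lp (fun _ : ℕ => ℝ) 1 →L[ℝ] X, ∃ c : ℝ, 0 < c ∧
    ∀ y : lp (fun _ : ℕ => ℝ) 1, c * ‖y‖ ≤ ‖S y‖

/-- `X` has numerical index one: the numerical radius of every bounded operator is its norm (as in
the frozen statement). -/
def IndexOne (X : Type) [NormedAddCommGroup X] [NormedSpace ℝ X] : Prop :=
  ∀ (T : X →L[ℝ] X) (r : ℝ), r < ‖T‖ →
    ∃ (x : X) (f : X →L[ℝ] ℝ), ‖x‖ = 1 ∧ ‖f‖ = 1 ∧ f x = 1 ∧ r < |f (T x)|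

/-- `X` is an almost-CL-space: for every maximal convex subset `F` of the unit sphere, the unit ball
is the closed convex hull of the union of `F` and `-F`. -/
def AlmostCL (X : Type) [NormedAddCommGroup X] [NormedSpace ℝ X] : Prop :=
  ∀ F : Set X, Maximal (fun G : Set X => Convex ℝ G ∧ G ⊆ Metric.sphere (0 : X) 1) F →
    Metric.closedBall (0 : X) 1 ⊆ closure (convexHull ℝ (F ∪ -F))

/-- A spear: a norm one functional `f` such that, for every `ε > 0`, the unit ball is the closed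
convex hull of the slice `f > 1 - ε` of the unit ball and the opposite slice. -/
def Spear {X : Type} [NormedAddCommGroup X] [NormedSpace ℝ X] (f : X →L[ℝ] ℝ) : Prop :=
  ‖f‖ = 1 ∧ ∀ ε : ℝ, 0 < ε → Metric.closedBall (0 : X) 1 ⊆
    closure (convexHull ℝ ({x : X | ‖x‖ ≤ 1 ∧ 1 - ε < f x} ∪ {x : X | ‖x‖ ≤ 1 ∧ f x < -(1 - ε)}))

/-- The spears together with countably many further functionals are a boundary: every vector attains
its norm at a spear or at an element of the dual unit ball which is in the countable set `Q`. -/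
def HasSpearBoundary (X : Type) [NormedAddCommGroup X] [NormedSpace ℝ X] : Prop :=
  ∃ Q : Set (X →L[ℝ] ℝ), Q.Countable ∧
    ∀ x : X, ∃ f : X →L[ℝ] ℝ, (Spear f ∨ f ∈ Q) ∧ ‖f‖ ≤ 1 ∧ |f x| = ‖x‖

theorem result (X : Type) [NormedAddCommGroup X] [NormedSpace ℝ X] [CompleteSpace X]
    [TopologicalSpace.SeparableSpace X] (hX : ¬ FiniteDimensional ℝ X)
    (h : AlmostCL X ∨ (IndexOne X ∧ HasSpearBoundary X)) : ContainsC0 X ∨ ContainsL1 X := by
  rcases h with h | ⟨hN, Q, hQ, hbd⟩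
  · exact MPbb13ef.almostCL_main X hX h
  · exact MPbb13ef.main_index X hX hN Q hQ hbd

end Pool.Agent.Results.MP_bb13ef_an.SpearBoundary
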