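import Pool.Agent.Work.MP_bb13ef_an.SR.Main

/-!
# Strongly regular real Banach spaces with numerical index one contain `ℓ₁`
-/

set_option autoImplicit false

namespace Pool.Agent.Results.MP_bb13ef_an.StronglyRegular

/-- A real Banach space is strongly regular if every nonempty closed bounded convex subset `C` has,
for every `δ > 0`, a convex combination of (nonempty) slices `{x ∈ C : a i < g i x}` of `C` whose
diameter is at most `δ`. -/
def IsStronglyRegular (X : Type) [NormedAddCommGroup X] [NormedSpace ℝ X] : Prop :=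
  ∀ C : Set X, C.Nonempty → IsClosed C → Bornology.IsBounded C → Convex ℝ C →
    ∀ δ : ℝ, 0 < δ → ∃ (n : ℕ) (l : Fin n → ℝ) (g : Fin n → (X →L[ℝ] ℝ)) (a : Fin n → ℝ),
      (∀ i, 0 ≤ l i) ∧ ∑ i, l i = 1 ∧ (∀ i, ∃ x ∈ C, a i < g i x) ∧
      ∀ x y : Fin n → X, (∀ i, x i ∈ C ∧ a i < g i (x i)) → (∀ i, y i ∈ C ∧ a i < g i (y i)) →
        ‖∑ i, l i • (x i - y i)‖ ≤ δ

/-- Every infinite-dimensional strongly regular real Banach space with numerical index `1` contains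
an isomorphic copy of `ℓ₁`. -/
theorem result :
    ∀ (X : Type) [NormedAddCommGroup X] [NormedSpace ℝ X] [CompleteSpace X],
      ¬ FiniteDimensional ℝ X →
      (∀ T : X →L[ℝ] X, ∀ r : ℝ, r < ‖T‖ →
        ∃ x : X, ∃ f : X →L[ℝ] ℝ,
          ‖x‖ = 1 ∧ ‖f‖ = 1 ∧ f x = 1 ∧ r < |f (T x)|) →
      IsStronglyRegular X →
      ∃ S : lp (fun _ : ℕ => ℝ) 1 →L[ℝ] X, ∃ c : ℝ, 0 < c ∧
        ∀ y : lp (fun _ : ℕ => ℝ) 1, c * ‖y‖ ≤ ‖S y‖ := by
  intro X _ _ _ hX hN hR
  exact MPbb13ef.FIN3 X hX hN hR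

end Pool.Agent.Results.MP_bb13ef_an.StronglyRegular
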